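import Pool.Agent.Work.MP_3242df_cf.GN
import Pool.Agent.Work.MP_3242df_cf.D2
import Pool.Agent.Work.MP_3242df_cf.E
import Pool.Agent.Work.MP_3242df_cf.Fin

/-!
# The kinetic energy inequality with the semiclassical constant for families with a common factor

Let `f` be a normalised function in `C_c^1(ℝ; ℂ)` and `w_1, …, w_N` an orthonormal family in `C_c^1(ℝ²; ℂ)`.
The functions `φ_i(x) = f(x_0) w_i(x_1, x_2)` are in `C_c^1(ℝ³; ℂ)` and orthonormal, and with `ρ = ∑ |φ_i| ^ 2`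
the kinetic energy `∑ ∫ |∇ φ_i| ^ 2` is at least `(3/5) (6 π²)^(2/3) ∫ ρ ^ (5/3)`.
-/

set_option autoImplicit false

open MeasureTheory

namespace Pool.Agent.Results.MP_3242df_mp.CommonFactor

/-- **Main theorem.** -/
theorem result (N : ℕ) (f : ℝ → ℂ) (w : Fin N → ℝ × ℝ → ℂ)
    (hf : ContDiff ℝ 1 f ∧ HasCompactSupport f) (hf1 : ∫ t, ‖f t‖ ^ 2 = 1)
    (hw : ∀ i, ContDiff ℝ 1 (w i) ∧ HasCompactSupport (w i))
    (ho : ∀ i j, ∫ p, (starRingEnd ℂ) (w i p) * w j p = if i = j then (1 : ℂ) else 0)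
    (φ : Fin N → EuclideanSpace ℝ (Fin 3) → ℂ)
    (hφ : ∀ i x, φ i x = f (x 0) * w i (x 1, x 2)) :
    (∀ i, ContDiff ℝ 1 (φ i) ∧ HasCompactSupport (φ i)) ∧
    (∀ i j, ∫ x, (starRingEnd ℂ) (φ i x) * φ j x = if i = j then (1 : ℂ) else 0) ∧
    3 / 5 * (6 * Real.pi ^ 2) ^ ((2 : ℝ) / 3) * ∫ x, (∑ i, ‖φ i x‖ ^ 2) ^ ((5 : ℝ) / 3) ≤
      ∑ i, ∫ x, ∑ j : Fin 3, ‖fderiv ℝ (φ i) x (EuclideanSpace.single j (1 : ℝ))‖ ^ 2 := by
  have hF : Pool.CF.Fun1 f := ⟨hf.1, hf.2, hf1⟩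
  have hW : Pool.CF.Fam2 w := ⟨fun i => (hw i).1, fun i => (hw i).2, ho⟩
  have hφ' : φ = Pool.CF.phi f w := by
    funext i x
    exact hφ i x
  subst hφ'
  exact ⟨Pool.CF.p_EA N f w hF hW, Pool.CF.p_EB N f w hF hW,
    Pool.CF.fin_step Pool.CF.p_GN Pool.CF.p_D2 N f w hF hW⟩

end Pool.Agent.Results.MP_3242df_mp.CommonFactor
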