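import Pool.Agent.Work.MP_3242df_lt.All

/-!
# The kinetic energy constant in dimension three is at least `(3/4)^(1/3)` times the semiclassical one

For every finite `L^2`-orthonormal family of compactly supported `C^1` complex functions on `R^3`
the kinetic energy is at least `(3/4)^(1/3) * (3/5) (6 pi^2)^(2/3)` times the integral of
`rho^(5/3)`.
-/

set_option autoImplicit false

open MeasureTheory

namespace Pool.Agent.Results.MP_3242df_mp.KineticConstant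

theorem const_eq : ((3 : ℝ) / 4) ^ ((1 : ℝ) / 3)
      * ((3 / 5 : ℝ) * (6 * Real.pi ^ 2) ^ ((2 : ℝ) / 3))
    = (9 / 5 : ℝ) * Real.pi ^ ((4 : ℝ) / 3) := by
  have hpi : (0 : ℝ) < Real.pi := Real.pi_pos
  have e1 : (6 * Real.pi ^ 2 : ℝ) ^ ((2 : ℝ) / 3)
      = ((36 : ℝ)) ^ ((1 : ℝ) / 3) * Real.pi ^ ((4 : ℝ) / 3) := by
    rw [Real.mul_rpow (by norm_num) (by positivity)]
    congr 1
    · rw [show (36 : ℝ) = 6 ^ ((2 : ℝ)) by norm_num, ← Real.rpow_mul (by norm_num)]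
      norm_num
    · rw [← Real.rpow_natCast, ← Real.rpow_mul hpi.le]
      norm_num
  have e2 : ((3 : ℝ) / 4) ^ ((1 : ℝ) / 3) * (36 : ℝ) ^ ((1 : ℝ) / 3) = 3 := by
    rw [← Real.mul_rpow (by norm_num) (by norm_num)]
    rw [show (3 / 4 * 36 : ℝ) = 3 ^ ((3 : ℝ)) by norm_num, ← Real.rpow_mul (by norm_num)]
    norm_num
  calc ((3 : ℝ) / 4) ^ ((1 : ℝ) / 3) * ((3 / 5 : ℝ) * (6 * Real.pi ^ 2) ^ ((2 : ℝ) / 3))
      = (3 / 5 : ℝ) * (((3 : ℝ) / 4) ^ ((1 : ℝ) / 3) * (36 : ℝ) ^ ((1 : ℝ) / 3))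
          * Real.pi ^ ((4 : ℝ) / 3) := by rw [e1]; ring
    _ = (9 / 5 : ℝ) * Real.pi ^ ((4 : ℝ) / 3) := by rw [e2]; ring

/-- `K_3 >= (3/4)^(1/3) K_3^c`, where `K_3^c = (3/5) (6 pi^2)^(2/3)`. -/
theorem result (N : ℕ) (φ : Fin N → EuclideanSpace ℝ (Fin 3) → ℂ)
    (hφ : ∀ i, ContDiff ℝ 1 (φ i) ∧ HasCompactSupport (φ i))
    (horth : ∀ i j, ∫ x, (starRingEnd ℂ) (φ i x) * φ j x = if i = j then (1 : ℂ) else 0) :
    ((3 : ℝ) / 4) ^ ((1 : ℝ) / 3) * ((3 / 5 : ℝ) * (6 * Real.pi ^ 2) ^ ((2 : ℝ) / 3)) *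
        ∫ x, (∑ i, ‖φ i x‖ ^ 2) ^ ((5 : ℝ) / 3)
      ≤ ∑ i, ∫ x, ∑ j : Fin 3,
          ‖fderiv ℝ (φ i) x (EuclideanSpace.single j (1 : ℝ))‖ ^ 2 := by
  rw [const_eq]
  exact Pool.LT.all_MAIN3 N φ hφ horth

end Pool.Agent.Results.MP_3242df_mp.KineticConstant
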