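import Pool.Agent.Work.MP_3242df_lt.OpVal

/-!
# The sharp operator valued kinetic energy inequality on the line

For `u_1, ..., u_N` of class `C^1` with compact support on the line, with values in a complex inner
product space `H`, orthonormal in `L^2(R; H)`, the kinetic energy is at least `pi^2/4` times the
integral of the trace of the cube of the Gram matrix `(<u_i(x), u_j(x)>)`; the constant `pi^2/4` is
the best one, already for `N = 1` and `H = C`.
-/

set_option autoImplicit false

open MeasureTheory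

universe u

namespace Pool.Agent.Results.MP_3242df_mp.OperatorValuedLine

/-- Sharp operator valued inequality in dimension one, and optimality of the constant. -/
theorem result :
    (∀ (H : Type u) [NormedAddCommGroup H] [InnerProductSpace ℂ H] (N : ℕ) (v : Fin N → ℝ → H),
      (∀ i, ContDiff ℝ 1 (v i) ∧ HasCompactSupport (v i)) →
      (∀ i j, ∫ x, inner ℂ (v i x) (v j x) = if i = j then (1 : ℂ) else 0) →
      Real.pi ^ 2 / 4 * ∫ x, (Matrix.trace ((Matrix.gram ℂ fun i => v i x) ^ 3)).re
        ≤ ∑ i, ∫ x, ‖deriv (v i) x‖ ^ 2) ∧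
    (∀ K : ℝ, Real.pi ^ 2 / 4 < K → ∃ v : ℝ → ℂ, ContDiff ℝ 1 v ∧ HasCompactSupport v ∧
      (∫ x, ‖v x‖ ^ 2) = 1 ∧ (∫ x, ‖deriv v x‖ ^ 2) < K * ∫ x, ‖v x‖ ^ 6) :=
  ⟨fun _ _ _ _ v hv ho => Pool.LT.OpVal.main v hv ho, fun K hK => Pool.LT.OpVal.opt K hK⟩

end Pool.Agent.Results.MP_3242df_mp.OperatorValuedLine
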