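import Pool.Agent.Work.MP_3242df_tp.TW
import Pool.Agent.Work.MP_3242df_tp.TDW
import Pool.Agent.Work.MP_3242df_tp.TD
import Pool.Agent.Work.MP_3242df_tp.TS
import Pool.Agent.Work.MP_3242df_tp.TP
import Pool.Agent.Work.MP_3242df_tp.TE
import Pool.Agent.Work.MP_3242df_tp.T1
import Pool.Agent.Work.MP_3242df_tp.T2
import Pool.Agent.Work.MP_3242df_tp.TA
import Pool.Agent.Work.MP_3242df_tp.TK
import Pool.Agent.Work.MP_3242df_tp.TR
import Pool.Agent.Work.MP_3242df_tp.TM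
import Pool.Agent.Work.MP_3242df_tp.TC
import Pool.Agent.Work.MP_3242df_tp.TF

/-!
# The sharp kinetic energy inequality for tensor products

Let `u_d = (u_{d,1}, …, u_{d,n_d})`, `d = 0, 1, 2`, be finite orthonormal families in `C_c^1(ℝ; ℂ)`.
The functions `φ_a(x) = u_{0,a_0}(x_0) u_{1,a_1}(x_1) u_{2,a_2}(x_2)` are in `C_c^1(ℝ^3; ℂ)` and
orthonormal, and with `ρ = ∑ |φ_a| ^ 2` the kinetic energy `∑ ∫ |∇ φ_a| ^ 2` is at least
`9.12 ∫ ρ ^ (5/3)`, and `9.12 > (3/5) (6 π ^ 2) ^ (2/3)`.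
-/

open MeasureTheory

namespace Pool.Agent.Results.MP_3242df_mp.TensorProducts

/-- The inequality on `ℝ ^ 3`. -/
theorem tf : Pool.Agent.Work.MP_3242df_tp.S_TF :=
  Pool.Agent.Work.MP_3242df_tp.p_TF
    (Pool.Agent.Work.MP_3242df_tp.p_T2
      (Pool.Agent.Work.MP_3242df_tp.p_T1
        (Pool.Agent.Work.MP_3242df_tp.p_TD Pool.Agent.Work.MP_3242df_tp.p_TW
          (Pool.Agent.Work.MP_3242df_tp.p_TDW Pool.Agent.Work.MP_3242df_tp.p_TW))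
        (Pool.Agent.Work.MP_3242df_tp.p_TP Pool.Agent.Work.MP_3242df_tp.p_TW
          Pool.Agent.Work.MP_3242df_tp.p_TS)
        Pool.Agent.Work.MP_3242df_tp.p_TE))
    Pool.Agent.Work.MP_3242df_tp.p_TK Pool.Agent.Work.MP_3242df_tp.p_TR
    Pool.Agent.Work.MP_3242df_tp.p_TM

/-- **Main theorem.** -/
theorem result (n : Fin 3 → ℕ) (u : ∀ d : Fin 3, Fin (n d) → ℝ → ℂ)
    (hu : ∀ d i, ContDiff ℝ 1 (u d i) ∧ HasCompactSupport (u d i))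
    (ho : ∀ d i j, ∫ y, (starRingEnd ℂ) (u d i y) * u d j y = if i = j then (1 : ℂ) else 0)
    (φ : (∀ d : Fin 3, Fin (n d)) → EuclideanSpace ℝ (Fin 3) → ℂ)
    (hφ : ∀ a x, φ a x = ∏ d, u d (a d) (x d)) :
    (∀ a, ContDiff ℝ 1 (φ a) ∧ HasCompactSupport (φ a)) ∧
    (∀ a b, ∫ x, (starRingEnd ℂ) (φ a x) * φ b x = if a = b then (1 : ℂ) else 0) ∧
    9.12 * ∫ x, (∑ a, ‖φ a x‖ ^ 2) ^ ((5 : ℝ) / 3) ≤
      ∑ a, ∫ x, ∑ j : Fin 3, ‖fderiv ℝ (φ a) x (EuclideanSpace.single j (1 : ℝ))‖ ^ 2 ∧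
    3 / 5 * (6 * Real.pi ^ 2) ^ ((2 : ℝ) / 3) < 9.12 := by
  have hF : ∀ d, Pool.Agent.Work.MP_3242df_tp.Fam (u d) := fun d =>
    ⟨fun i => (hu d i).1, fun i => (hu d i).2, fun i j => ho d i j⟩
  have hφ' : φ = Pool.Agent.Work.MP_3242df_tp.prodFun u := by
    funext a x
    exact hφ a x
  subst hφ'
  obtain ⟨h1, h2⟩ := Pool.Agent.Work.MP_3242df_tp.p_TA n u hF
  refine ⟨h1, h2, ?_, ?_⟩
  · have h := tf n u hF
    norm_num at h ⊢
    exact h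
  · have h := Pool.Agent.Work.MP_3242df_tp.p_TC
    unfold Pool.Agent.Work.MP_3242df_tp.S_TC at h
    norm_num at h ⊢
    exact h

end Pool.Agent.Results.MP_3242df_mp.TensorProducts
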